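import Pool.Agent.TH915.CN.Sieve

/-!
# Squarefree congruent numbers in residue classes (helper915)
-/

set_option autoImplicit false

namespace Pool.Agent.TH915.CN

open Finset

/-- A representative of the class which is not divisible by squares of primes dividing the
modulus. -/
theorem class_rep (M a : ℕ) (hg : Squarefree (Nat.gcd a M)) :
    ∃ a' : ℕ, a' ≡ a [MOD M] ∧ ∀ p : ℕ, p.Prime → p ∣ M → ∀ u : ℕ,
      M * Nat.gcd a M ∣ u + a' → ¬ p ^ 2 ∣ u := by
  classical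
  set g := Nat.gcd a M with hgdef
  set t : ℕ := ∏ p ∈ g.primeFactors.filter (fun p => ¬ p ^ 2 ∣ a), p with ht
  have hg0 : g ≠ 0 := hg.ne_zero
  refine ⟨a + M * t, ?_, ?_⟩
  · have : M * t ≡ 0 [MOD M] := (Nat.modEq_zero_iff_dvd).2 (dvd_mul_right _ _)
    exact (Nat.ModEq.refl a).add this
  intro p hp hpM u hu hpu
  by_cases hpa : p ∣ a
  · have hpg : p ∣ g := Nat.dvd_gcd hpa hpM
    have hp2 : p ^ 2 ∣ M * g := by
      rw [pow_two]; exact Nat.mul_dvd_mul hpM hpg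
    have h1 : p ^ 2 ∣ u + (a + M * t) := hp2.trans hu
    have h2 : p ^ 2 ∣ a + M * t := (Nat.dvd_add_right hpu).1 h1
    by_cases hp2a : p ^ 2 ∣ a
    · have h3 : p ^ 2 ∣ M * t := (Nat.dvd_add_right hp2a).1 h2
      have h4 : ¬ p ∣ t := by
        rw [ht, hp.prime.dvd_finsetProd_iff]
        rintro ⟨r, hr, hpr⟩
        obtain ⟨hr1, hr2⟩ := Finset.mem_filter.1 hr
        have hrp : r.Prime := Nat.prime_of_mem_primeFactors hr1
        have : p = r := (Nat.prime_dvd_prime_iff_eq hp hrp).1 hpr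
        rw [← this] at hr2
        exact hr2 hp2a
      have h5 : Nat.Coprime (p ^ 2) t := ((Nat.Prime.coprime_iff_not_dvd hp).2 h4).pow_left 2
      have h6 : p ^ 2 ∣ M := h5.dvd_of_dvd_mul_right h3
      have h7 : p * p ∣ g := by
        rw [← pow_two]; exact Nat.dvd_gcd hp2a h6
      have h8 := hg p h7
      exact hp.one_lt.ne' (Nat.isUnit_iff.1 h8)
    · have h3 : p ∣ t := by
        rw [ht]
        exact Finset.dvd_prod_of_mem (fun p => p)
          (Finset.mem_filter.2 ⟨Nat.mem_primeFactors.2 ⟨hp, hpg, hg0⟩, hp2a⟩)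
      have h4 : p ^ 2 ∣ M * t := by
        rw [pow_two]; exact Nat.mul_dvd_mul hpM h3
      exact hp2a ((Nat.dvd_add_left h4).1 h2)
  · apply hpa
    have h1 : p ∣ u + (a + M * t) := (hpM.trans (dvd_mul_right _ _)).trans hu
    have h2 : p ∣ u := (dvd_pow_self p two_ne_zero).trans hpu
    have h3 : p ∣ a + M * t := (Nat.dvd_add_right h2).1 h1
    exact (Nat.dvd_add_left (hpM.trans (dvd_mul_right _ _))).1 h3

/-- The least element of a residue class above `U`. -/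
theorem exists_start (Q a U : ℕ) (hQ : 1 ≤ Q) : ∃ u, U ≤ u ∧ u < U + Q ∧ Q ∣ u + a := by
  have h1 := Nat.div_add_mod (U + a + (Q - 1)) Q
  have h2 := Nat.mod_lt (U + a + (Q - 1)) hQ
  set k := (U + a + (Q - 1)) / Q
  set r := (U + a + (Q - 1)) % Q
  have h3 : a ≤ Q * k := by omega
  refine ⟨Q * k - a, by omega, by omega, ?_⟩
  have h4 : Q * k - a + a = Q * k := by omega
  rw [h4]
  exact dvd_mul_right _ _

theorem squarefree_three {u m : ℕ} (hm : 2 ≤ m) (hum : u ∣ m) (he : Even m)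
    (h1 : Squarefree u) (h2 : Squarefree (m - 1)) (h3 : Squarefree (m + 1)) :
    Squarefree (u * (m - 1) * (m + 1)) := by
  have c1 : Nat.Coprime u (m - 1) := by
    have : Nat.Coprime m (m - 1) := by
      have e : m = (m - 1) + 1 := by omega
      rw [e]
      simp
    exact this.coprime_dvd_left hum
  have c2 : Nat.Coprime u (m + 1) := by
    have : Nat.Coprime m (m + 1) := by simp
    exact this.coprime_dvd_left hum
  have c3 : Nat.Coprime (m - 1) (m + 1) := by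
    have e : m + 1 = (m - 1) + 2 := by omega
    rw [e, Nat.coprime_self_add_right]
    have hodd : Odd (m - 1) := by
      obtain ⟨t, ht⟩ := he
      exact ⟨t - 1, by omega⟩
    exact Nat.Coprime.symm ((Nat.coprime_two_left).mpr hodd)
  rw [Nat.squarefree_mul (Nat.Coprime.mul_left c2 c3), Nat.squarefree_mul c1]
  exact ⟨⟨h1, h2⟩, h3⟩

/-- The main construction. -/
theorem core (q a U : ℕ) (hq : 1 ≤ q) (hg : Squarefree (Nat.gcd a (8 * q))) (hU : 1 ≤ U) :
    ∃ u : ℕ, U ≤ u ∧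
      u ≤ U + 8 * q * Nat.gcd a (8 * q) + 8 * q * Nat.gcd a (8 * q) *
        (48 * q * (Nat.sqrt (U + 8 * q * Nat.gcd a (8 * q)) + 1) +
          1152 * q ^ 2 * (8 * q * Nat.gcd a (8 * q))) ∧
      Squarefree (u * (4 * q ^ 2 * u - 1) * (4 * q ^ 2 * u + 1)) ∧
      u * (4 * q ^ 2 * u - 1) * (4 * q ^ 2 * u + 1) ≡ a [MOD 8 * q] := by
  obtain ⟨a', ha', hrep⟩ := class_rep (8 * q) a hg
  set g := Nat.gcd a (8 * q) with hgdef
  have hg0 : 1 ≤ g := Nat.one_le_iff_ne_zero.2 hg.ne_zero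
  have hgM : g ∣ 8 * q := Nat.gcd_dvd_right _ _
  set Q := 8 * q * g with hQ
  have hQ1 : 1 ≤ Q := Nat.mul_pos (by omega) hg0
  obtain ⟨u0, hu1, hu2, hu3⟩ := exists_start Q a' U hQ1
  set r := Nat.sqrt u0 + 1 with hr
  set J := 48 * q * r + 1152 * q ^ 2 * Q with hJ
  set W := 4 * q ^ 2 * (u0 + Q * J) + 1 with hW
  set N := Nat.sqrt W with hN
  have hr2 : u0 < r ^ 2 := by
    have := Nat.lt_succ_sqrt u0
    rw [hr, pow_two]
    exact this
  have hJN : 12 * N < J := by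
    have h1 : N ^ 2 ≤ W := Nat.sqrt_le' W
    have h2 : (12 * N) ^ 2 < J ^ 2 := by
      have e1 : (12 * N) ^ 2 ≤ 144 * W := by nlinarith
      have e2 : J ^ 2 = 48 * q * r * J + 1152 * q ^ 2 * Q * J := by
        have : J * J = (48 * q * r + 1152 * q ^ 2 * Q) * J := by rw [← hJ]
        rw [pow_two, this]; ring
      have e3 : (48 * q * r) * (48 * q * r) ≤ 48 * q * r * J :=
        Nat.mul_le_mul_left _ (by rw [hJ]; exact Nat.le_add_right _ _)
      have e4 : 144 * W = 576 * q ^ 2 * u0 + 576 * q ^ 2 * Q * J + 144 := by rw [hW]; ring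
      have e5 : (48 * q * r) * (48 * q * r) = 2304 * (q ^ 2 * r ^ 2) := by ring
      have e6 : q ^ 2 * u0 ≤ q ^ 2 * r ^ 2 := Nat.mul_le_mul_left _ hr2.le
      have e7 : 1 ≤ q ^ 2 * r ^ 2 := Nat.one_le_iff_ne_zero.2 (by positivity)
      have e8 : 576 * q ^ 2 * u0 = 576 * (q ^ 2 * u0) := by ring
      have e9 : 576 * q ^ 2 * Q * J ≤ 1152 * q ^ 2 * Q * J := by
        apply Nat.mul_le_mul_right
        apply Nat.mul_le_mul_right
        apply Nat.mul_le_mul_right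
        norm_num
      omega
    exact lt_of_pow_lt_pow_left₀ 2 (Nat.zero_le _) h2
  obtain ⟨j, hjJ, hj⟩ := exists_j J N hJN ![Q, 4 * q ^ 2 * Q, 4 * q ^ 2 * Q]
    ![(u0 : ℤ), 4 * (q : ℤ) ^ 2 * u0 - 1, 4 * (q : ℤ) ^ 2 * u0 + 1]
  set u := u0 + Q * j with hu
  have hU0 : 1 ≤ u := by omega
  have hq2 : 1 ≤ q ^ 2 := Nat.one_le_pow _ _ hq
  have hm4 : 4 ≤ 4 * q ^ 2 * u := by
    have : 1 ≤ q ^ 2 * u := Nat.mul_pos hq2 hU0
    have e : 4 * q ^ 2 * u = 4 * (q ^ 2 * u) := by ring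
    omega
  have huJ : u ≤ u0 + Q * J := by
    rw [hu]
    exact Nat.add_le_add_left (Nat.mul_le_mul_left _ hjJ.le) _
  have hmW : 4 * q ^ 2 * u + 1 ≤ W := by
    rw [hW]
    exact Nat.add_le_add_right (Nat.mul_le_mul_left _ huJ) _
  have huW : u ≤ W := by
    have : 1 * u ≤ 4 * q ^ 2 * u := Nat.mul_le_mul_right _ (by omega)
    omega
  -- coprimality for primes not dividing 8 q
  have hcop : ∀ p : ℕ, p.Prime → ¬ p ∣ 8 * q → Odd p ∧ 3 ≤ p ∧
      ∀ i : Fin 3, Nat.Coprime p ((![Q, 4 * q ^ 2 * Q, 4 * q ^ 2 * Q] : Fin 3 → ℕ) i) := by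
    intro p hp hpq
    have h2 : p ≠ 2 := by
      rintro rfl
      exact hpq (Dvd.dvd.mul_right (by norm_num) q)
    have hodd : Odd p := hp.odd_of_ne_two h2
    have hc : Nat.Coprime p (8 * q) := (Nat.Prime.coprime_iff_not_dvd hp).2 hpq
    have hcq : Nat.Coprime p q := hc.coprime_mul_left_right
    have hc4 : Nat.Coprime p 4 := by
      have : Nat.Coprime p 2 := (Nat.coprime_primes hp Nat.prime_two).2 h2
      have e : (4 : ℕ) = 2 ^ 2 := by norm_num
      rw [e]; exact this.pow_right 2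
    have hcg : Nat.Coprime p g := hc.coprime_dvd_right hgM
    have hcQ : Nat.Coprime p Q := by rw [hQ]; exact hc.mul_right hcg
    have hcQ2 : Nat.Coprime p (4 * q ^ 2 * Q) := (hc4.mul_right (hcq.pow_right 2)).mul_right hcQ
    refine ⟨hodd, ?_, ?_⟩
    · have := hp.two_le
      omega
    · intro i
      fin_cases i
      · exact hcQ
      · exact hcQ2
      · exact hcQ2
  have hsmall : ∀ p x : ℕ, p * p ∣ x → 0 < x → x ≤ W → p ≤ N := by
    intro p x h1 h2 h3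
    rw [hN]
    exact Nat.le_sqrt.2 ((Nat.le_of_dvd h2 h1).trans h3)
  -- squarefreeness of the three factors
  have hsu : Squarefree u := by
    rw [Nat.squarefree_iff_prime_squarefree]
    intro p hp hpu
    by_cases hpq : p ∣ 8 * q
    · refine hrep p hp hpq u ?_ (by rw [pow_two]; exact hpu)
      have : u + a' = (u0 + a') + Q * j := by rw [hu]; ring
      rw [this]
      exact dvd_add hu3 (dvd_mul_right _ _)
    · obtain ⟨c1, c2, c3⟩ := hcop p hp hpq
      refine hj p c1 c2 (hsmall p u hpu (by omega) huW) c3 0 ?_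
      have e : ((Q : ℕ) : ℤ) * j + (u0 : ℤ) = ((u : ℕ) : ℤ) := by rw [hu]; push_cast; ring
      show ((p ^ 2 : ℕ) : ℤ) ∣ ((Q : ℕ) : ℤ) * j + (u0 : ℤ)
      rw [e, Int.natCast_dvd_natCast, pow_two]
      exact hpu
  have hs2 : ∀ p : ℕ, p.Prime → p ∣ 8 * q → p ∣ 4 * q ^ 2 * u := by
    intro p hp hpq
    have : p ∣ 4 * q ^ 2 := by
      rcases (Nat.Prime.dvd_mul hp).1 hpq with h | h
      · have h8 : p ∣ 2 ^ 3 := by norm_num; exact h
        have h2 := hp.dvd_of_dvd_pow h8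
        exact Dvd.dvd.mul_right (h2.trans (by norm_num)) _
      · exact Dvd.dvd.mul_left (h.trans (dvd_pow_self q two_ne_zero)) _
    exact this.mul_right _
  have hsm : Squarefree (4 * q ^ 2 * u - 1) := by
    rw [Nat.squarefree_iff_prime_squarefree]
    intro p hp hpu
    by_cases hpq : p ∣ 8 * q
    · have h1 := hs2 p hp hpq
      have h2 : p ∣ 4 * q ^ 2 * u - 1 := (dvd_mul_right p p).trans hpu
      have h3 := (Nat.dvd_sub h1 h2)
      have h4 : 4 * q ^ 2 * u - (4 * q ^ 2 * u - 1) = 1 := by omega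
      rw [h4] at h3
      exact hp.one_lt.ne' (Nat.dvd_one.1 h3)
    · obtain ⟨c1, c2, c3⟩ := hcop p hp hpq
      refine hj p c1 c2 (hsmall p _ hpu (by omega) (by omega)) c3 1 ?_
      have e : ((4 * q ^ 2 * Q : ℕ) : ℤ) * j + (4 * (q : ℤ) ^ 2 * u0 - 1) =
          ((4 * q ^ 2 * u - 1 : ℕ) : ℤ) := by
        rw [Nat.cast_sub (by omega), hu]; push_cast; ring
      show ((p ^ 2 : ℕ) : ℤ) ∣ ((4 * q ^ 2 * Q : ℕ) : ℤ) * j + (4 * (q : ℤ) ^ 2 * u0 - 1)
      rw [e, Int.natCast_dvd_natCast, pow_two]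
      exact hpu
  have hsp : Squarefree (4 * q ^ 2 * u + 1) := by
    rw [Nat.squarefree_iff_prime_squarefree]
    intro p hp hpu
    by_cases hpq : p ∣ 8 * q
    · have h1 := hs2 p hp hpq
      have h2 : p ∣ 4 * q ^ 2 * u + 1 := (dvd_mul_right p p).trans hpu
      have h3 := (Nat.dvd_add_right h1).1 h2
      exact hp.one_lt.ne' (Nat.dvd_one.1 h3)
    · obtain ⟨c1, c2, c3⟩ := hcop p hp hpq
      refine hj p c1 c2 (hsmall p _ hpu (by omega) hmW) c3 2 ?_
      have e : ((4 * q ^ 2 * Q : ℕ) : ℤ) * j + (4 * (q : ℤ) ^ 2 * u0 + 1) =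
          ((4 * q ^ 2 * u + 1 : ℕ) : ℤ) := by
        rw [hu]; push_cast; ring
      show ((p ^ 2 : ℕ) : ℤ) ∣ ((4 * q ^ 2 * Q : ℕ) : ℤ) * j + (4 * (q : ℤ) ^ 2 * u0 + 1)
      rw [e, Int.natCast_dvd_natCast, pow_two]
      exact hpu
  refine ⟨u, by omega, ?_, ?_, ?_⟩
  · have h1 : Nat.sqrt u0 ≤ Nat.sqrt (U + Q) := Nat.sqrt_le_sqrt hu2.le
    have h2 : J ≤ 48 * q * (Nat.sqrt (U + Q) + 1) + 1152 * q ^ 2 * Q := by
      rw [hJ, hr]
      gcongr
    calc u ≤ u0 + Q * J := huJ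
      _ ≤ (U + Q) + Q * (48 * q * (Nat.sqrt (U + Q) + 1) + 1152 * q ^ 2 * Q) :=
          Nat.add_le_add hu2.le (Nat.mul_le_mul_left _ h2)
  · refine squarefree_three (by omega) (dvd_mul_left _ _) ?_ hsu hsm hsp
    exact ⟨2 * q ^ 2 * u, by ring⟩
  · refine Nat.ModEq.trans ?_ ha'
    apply Nat.ModEq.symm
    rw [Nat.modEq_iff_dvd]
    have h1 : ((8 * q : ℕ) : ℤ) ∣ ((u + a' : ℕ) : ℤ) := by
      rw [Int.natCast_dvd_natCast]
      have : u + a' = (u0 + a') + Q * j := by rw [hu]; ring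
      rw [this]
      have hQd : 8 * q ∣ Q := dvd_mul_right _ _
      exact dvd_add (hQd.trans hu3) (hQd.trans (dvd_mul_right _ _))
    have e : ((u * (4 * q ^ 2 * u - 1) * (4 * q ^ 2 * u + 1) : ℕ) : ℤ) - (a' : ℤ) =
        ((8 * q : ℕ) : ℤ) * (2 * (q : ℤ) ^ 3 * (u : ℤ) ^ 3) - ((u + a' : ℕ) : ℤ) := by
      rw [Nat.cast_mul, Nat.cast_mul, Nat.cast_sub (by omega)]
      push_cast
      ring
    rw [e]
    exact dvd_sub (dvd_mul_right _ _) h1

end Pool.Agent.TH915.CN
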