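import Pool.Agent.TH915.CN.Fam

/-!
# Squarefree congruent numbers in residue classes: the bounds (helper915)
-/

set_option autoImplicit false

namespace Pool.Agent.TH915.CN

open Finset

theorem cube_bound {z A c : ℝ} (hz : 1 ≤ z) (hA : 1 ≤ A) (hc : 0 ≤ c) :
    (z ^ 2 + c * (A * z + A ^ 2)) ^ 3 ≤
      z ^ 6 + (6 * c + 12 * c ^ 2 + 8 * c ^ 3) * (A * z ^ 5 + A ^ 6) := by
  set m := max z A with hm
  have hzm : z ≤ m := le_max_left _ _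
  have hAm : A ≤ m := le_max_right _ _
  have hz0 : 0 ≤ z := by linarith
  have hA0 : 0 ≤ A := by linarith
  have hm0 : 0 ≤ m := hz0.trans hzm
  have key : A * m ^ 5 ≤ A * z ^ 5 + A ^ 6 := by
    rcases le_total z A with h | h
    · have : m = A := max_eq_right h
      rw [this]
      have e : A * A ^ 5 = A ^ 6 := by ring
      rw [e]
      have : 0 ≤ A * z ^ 5 := by positivity
      linarith
    · have : m = z := max_eq_left h
      rw [this]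
      have : 0 ≤ A ^ 6 := by positivity
      linarith
  have e : (z ^ 2 + c * (A * z + A ^ 2)) ^ 3 = z ^ 6 + 3 * c * (A * (z ^ 4 * (z + A))) +
      3 * c ^ 2 * (A * (A * (z ^ 2 * (z + A) ^ 2))) +
      c ^ 3 * (A * (A ^ 2 * (z + A) ^ 3)) := by ring
  have h2 : z + A ≤ 2 * m := by linarith
  have h20 : 0 ≤ z + A := by linarith
  have b1 : z ^ 4 * (z + A) ≤ 2 * m ^ 5 := by
    calc z ^ 4 * (z + A) ≤ m ^ 4 * (2 * m) := by gcongr
      _ = 2 * m ^ 5 := by ring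
  have b2 : A * (z ^ 2 * (z + A) ^ 2) ≤ 4 * m ^ 5 := by
    calc A * (z ^ 2 * (z + A) ^ 2) ≤ m * (m ^ 2 * (2 * m) ^ 2) := by gcongr
      _ = 4 * m ^ 5 := by ring
  have b3 : A ^ 2 * (z + A) ^ 3 ≤ 8 * m ^ 5 := by
    calc A ^ 2 * (z + A) ^ 3 ≤ m ^ 2 * (2 * m) ^ 3 := by gcongr
      _ = 8 * m ^ 5 := by ring
  rw [e]
  calc z ^ 6 + 3 * c * (A * (z ^ 4 * (z + A))) +
      3 * c ^ 2 * (A * (A * (z ^ 2 * (z + A) ^ 2))) + c ^ 3 * (A * (A ^ 2 * (z + A) ^ 3)) ≤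
      z ^ 6 + 3 * c * (A * (2 * m ^ 5)) + 3 * c ^ 2 * (A * (4 * m ^ 5)) +
        c ^ 3 * (A * (8 * m ^ 5)) := by gcongr
    _ = z ^ 6 + (6 * c + 12 * c ^ 2 + 8 * c ^ 3) * (A * m ^ 5) := by ring
    _ ≤ _ := by gcongr

/-- the size of `u` -/
theorem u_bound {q g y u U : ℝ} {w lam z : ℝ} (hq : 1 ≤ q) (hg : 1 ≤ g) (hy : 0 ≤ y)
    (hw : 1 ≤ w) (hqw : q = w ^ 3) (hlam : 0 < lam) (hlam4 : lam ≤ 4 * w ^ 4)
    (hz : 0 ≤ z) (hyz : lam * y = z ^ 2) (hU : U ≤ y + 2)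
    (hu : u ≤ U + 8 * q * g + 8 * q * g *
      (48 * q * (Real.sqrt (U + 8 * q * g) + 1) + 1152 * q ^ 2 * (8 * q * g))) :
    lam * u ≤ z ^ 2 + 302632 * (g * w ^ 8 * z + (g * w ^ 8) ^ 2) := by
  have hqg : 1 ≤ q * g := one_le_mul_of_one_le_of_one_le hq hg
  have hq0 : 0 ≤ q := by linarith
  have hg0 : 0 ≤ g := by linarith
  have h1 : Real.sqrt (U + 8 * q * g) ≤ Real.sqrt y + 4 * (q * g) := by
    rw [Real.sqrt_le_left (by positivity)]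
    have e : (Real.sqrt y + 4 * (q * g)) ^ 2 = y + 8 * Real.sqrt y * (q * g) +
        16 * (q * g) ^ 2 := by
      have := Real.sq_sqrt hy
      calc (Real.sqrt y + 4 * (q * g)) ^ 2 = (Real.sqrt y) ^ 2 + 8 * Real.sqrt y * (q * g) +
          16 * (q * g) ^ 2 := by ring
        _ = _ := by rw [this]
    rw [e]
    have h2 : 0 ≤ 8 * Real.sqrt y * (q * g) := by positivity
    have h3 : q * g ≤ (q * g) ^ 2 := by nlinarith
    nlinarith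
  set s := Real.sqrt y with hs
  have hs0 : 0 ≤ s := Real.sqrt_nonneg _
  have hss : s ^ 2 = y := Real.sq_sqrt hy
  have hqq : q ≤ q ^ 4 := le_self_pow₀ hq (by norm_num)
  have hq34 : q ^ 3 ≤ q ^ 4 := pow_le_pow_right₀ hq (by norm_num)
  have hgg : g ≤ g ^ 2 := le_self_pow₀ hg (by norm_num)
  have hq24 : q ^ 2 ≤ q ^ 4 := pow_le_pow_right₀ hq (by norm_num)
  have hq4g : 1 ≤ q ^ 4 * g ^ 2 := one_le_mul_of_one_le_of_one_le (one_le_pow₀ hq) (one_le_pow₀ hg)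
  have h2 : u ≤ y + 384 * (q ^ 2 * g) * s + 75658 * (q ^ 4 * g ^ 2) := by
    calc u ≤ U + 8 * q * g + 8 * q * g *
        (48 * q * (Real.sqrt (U + 8 * q * g) + 1) + 1152 * q ^ 2 * (8 * q * g)) := hu
      _ ≤ (y + 2) + 8 * q * g + 8 * q * g *
        (48 * q * ((s + 4 * (q * g)) + 1) + 1152 * q ^ 2 * (8 * q * g)) := by gcongr
      _ = y + 384 * (q ^ 2 * g) * s + (2 + 8 * (q * g) + 384 * (q ^ 2 * g) +
          1536 * (q ^ 3 * g ^ 2) + 73728 * (q ^ 4 * g ^ 2)) := by ring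
      _ ≤ y + 384 * (q ^ 2 * g) * s + (2 * (q ^ 4 * g ^ 2) + 8 * (q ^ 4 * g ^ 2) +
          384 * (q ^ 4 * g ^ 2) + 1536 * (q ^ 4 * g ^ 2) + 73728 * (q ^ 4 * g ^ 2)) := by
          gcongr
          linarith
      _ = y + 384 * (q ^ 2 * g) * s + 75658 * (q ^ 4 * g ^ 2) := by ring
  -- multiply by lam
  have h3 : lam * s ≤ 2 * w ^ 2 * z := by
    have e1 : (lam * s) ^ 2 ≤ (2 * w ^ 2 * z) ^ 2 := by
      calc (lam * s) ^ 2 = lam * (lam * y) := by rw [← hss]; ring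
        _ = lam * z ^ 2 := by rw [hyz]
        _ ≤ (4 * w ^ 4) * z ^ 2 := by gcongr
        _ = (2 * w ^ 2 * z) ^ 2 := by ring
    exact le_of_sq_le_sq e1 (by positivity)
  have hA1 : (q ^ 2 * g) * (2 * w ^ 2 * z) = 2 * (g * w ^ 8 * z) := by rw [hqw]; ring
  have hA2 : (q ^ 4 * g ^ 2) * (4 * w ^ 4) = 4 * (g * w ^ 8) ^ 2 := by rw [hqw]; ring
  calc lam * u ≤ lam * (y + 384 * (q ^ 2 * g) * s + 75658 * (q ^ 4 * g ^ 2)) := by gcongr
    _ = lam * y + 384 * ((q ^ 2 * g) * (lam * s)) + 75658 * ((q ^ 4 * g ^ 2) * lam) := by ring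
    _ ≤ z ^ 2 + 384 * ((q ^ 2 * g) * (2 * w ^ 2 * z)) +
        75658 * ((q ^ 4 * g ^ 2) * (4 * w ^ 4)) := by
        rw [hyz]; gcongr
    _ = z ^ 2 + 768 * (g * w ^ 8 * z) + 302632 * (g * w ^ 8) ^ 2 := by rw [hA1, hA2]; ring
    _ ≤ _ := by
        have : 0 ≤ g * w ^ 8 * z := by positivity
        nlinarith

/-- The main theorem. -/
theorem main : ∃ C : ℝ, 0 < C ∧ ∀ q a : ℕ, 1 ≤ q → Squarefree (Nat.gcd a (8 * q)) →
    ∀ X : ℝ, 1 ≤ X → ∃ n : ℕ, X ≤ n ∧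
      (n : ℝ) ≤ X + C * ((Nat.gcd a (8 * q) : ℝ) * (q : ℝ) ^ (8 / 3 : ℝ) * X ^ (5 / 6 : ℝ) +
        (Nat.gcd a (8 * q) : ℝ) ^ 6 * (q : ℝ) ^ 16) ∧
      Squarefree n ∧ n ≡ a [MOD 8 * q] ∧
      ∃ x y z t : ℕ, 0 < x ∧ 0 < y ∧ 0 < z ∧ 0 < t ∧
        x ^ 2 + n * y ^ 2 = z ^ 2 ∧ x ^ 2 = n * y ^ 2 + t ^ 2 := by
  refine ⟨6 * 302632 + 12 * 302632 ^ 2 + 8 * 302632 ^ 3, by norm_num, ?_⟩
  intro q a hq hg X hX
  set g := Nat.gcd a (8 * q) with hgdef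
  have hX0 : 0 < X := by linarith
  have hq1 : (1 : ℝ) ≤ q := by exact_mod_cast hq
  have hq0 : (0 : ℝ) < q := by linarith
  have hg1 : (1 : ℝ) ≤ g := by
    exact_mod_cast Nat.one_le_iff_ne_zero.2 hg.ne_zero
  set w : ℝ := (q : ℝ) ^ (1 / 3 : ℝ) with hw
  set z : ℝ := X ^ (1 / 6 : ℝ) with hz
  set κ : ℝ := (16 : ℝ) ^ (1 / 3 : ℝ) with hκ
  have hκ3 : κ ^ 3 = 16 := by
    rw [hκ, ← Real.rpow_natCast, ← Real.rpow_mul (by norm_num)]
    norm_num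
  have hκ0 : 0 < κ := by positivity
  have hκ4 : κ ≤ 4 := by
    by_contra h
    push Not at h
    have : (4 : ℝ) ^ 3 < κ ^ 3 := pow_lt_pow_left₀ h (by norm_num) (by norm_num)
    rw [hκ3] at this
    norm_num at this
  have hw3 : (q : ℝ) = w ^ 3 := by
    rw [hw, ← Real.rpow_natCast, ← Real.rpow_mul hq0.le]
    norm_num
  have hw1 : 1 ≤ w := Real.one_le_rpow hq1 (by norm_num)
  have hw0 : 0 < w := by linarith
  have hw8 : (q : ℝ) ^ (8 / 3 : ℝ) = w ^ 8 := by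
    rw [hw, ← Real.rpow_natCast, ← Real.rpow_mul hq0.le]
    norm_num
  have hz1 : 1 ≤ z := Real.one_le_rpow hX (by norm_num)
  have hz6 : X = z ^ 6 := by
    rw [hz, ← Real.rpow_natCast, ← Real.rpow_mul hX0.le]
    norm_num
  have hz5 : X ^ (5 / 6 : ℝ) = z ^ 5 := by
    rw [hz, ← Real.rpow_natCast, ← Real.rpow_mul hX0.le]
    norm_num
  set lam : ℝ := κ * w ^ 4 with hlam
  have hlam0 : 0 < lam := by positivity
  have hlam4 : lam ≤ 4 * w ^ 4 := by rw [hlam]; gcongr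
  have hlam3 : lam ^ 3 = 16 * (q : ℝ) ^ 4 := by
    rw [hlam, hw3]
    calc (κ * w ^ 4) ^ 3 = κ ^ 3 * (w ^ 3) ^ 4 := by ring
      _ = _ := by rw [hκ3]
  set y : ℝ := z ^ 2 / lam with hy
  have hy0 : 0 ≤ y := by positivity
  have hyz : lam * y = z ^ 2 := by rw [hy]; field_simp
  set U : ℕ := ⌈y⌉₊ + 1 with hU
  have hU1 : y + 1 ≤ (U : ℝ) := by
    rw [hU]; push_cast
    have := Nat.le_ceil y
    linarith
  have hU2 : (U : ℝ) ≤ y + 2 := by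
    rw [hU]; push_cast
    have := Nat.ceil_lt_add_one hy0
    linarith
  obtain ⟨u, hu1, hu2, hu3, hu4⟩ := core q a U hq hg (by omega)
  have huU : (U : ℝ) ≤ u := by exact_mod_cast hu1
  have hu0 : 1 ≤ u := by omega
  have hu0r : (1 : ℝ) ≤ u := by exact_mod_cast hu0
  -- the value of n
  have hm4 : 4 ≤ 4 * q ^ 2 * u := by
    have : 1 ≤ q ^ 2 * u := Nat.mul_pos (by positivity) hu0
    have e : 4 * q ^ 2 * u = 4 * (q ^ 2 * u) := by ring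
    omega
  set n : ℕ := u * (4 * q ^ 2 * u - 1) * (4 * q ^ 2 * u + 1) with hn
  have hnr : (n : ℝ) = 16 * (q : ℝ) ^ 4 * u ^ 3 - u := by
    rw [hn, Nat.cast_mul, Nat.cast_mul, Nat.cast_sub (by omega)]
    push_cast
    ring
  refine ⟨n, ?_, ?_, hu3, hu4, ?_⟩
  · -- lower bound
    have h1 : y ≤ (u : ℝ) - 1 := by linarith
    have h2 : 16 * (q : ℝ) ^ 4 * ((u : ℝ) - 1) ^ 3 ≤ 16 * (q : ℝ) ^ 4 * u ^ 3 - u := by
      have e : 16 * (q : ℝ) ^ 4 * u ^ 3 - u - 16 * (q : ℝ) ^ 4 * ((u : ℝ) - 1) ^ 3 =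
          (16 * (q : ℝ) ^ 4 - 1) * (3 * u ^ 2 - 3 * u + 1) +
            (3 * (u : ℝ) - 1) * ((u : ℝ) - 1) := by ring
      have h3 : (1 : ℝ) ≤ (q : ℝ) ^ 4 := one_le_pow₀ hq1
      have h4 : 0 ≤ 3 * (u : ℝ) ^ 2 - 3 * u + 1 := by nlinarith
      have h5 : 0 ≤ (16 * (q : ℝ) ^ 4 - 1) * (3 * (u : ℝ) ^ 2 - 3 * u + 1) :=
        mul_nonneg (by linarith) h4
      have h6 : 0 ≤ (3 * (u : ℝ) - 1) * ((u : ℝ) - 1) := mul_nonneg (by linarith) (by linarith)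
      linarith
    rw [hnr]
    refine le_trans ?_ h2
    calc X = z ^ 6 := hz6
      _ = (z ^ 2) ^ 3 := by ring
      _ = (lam * y) ^ 3 := by rw [hyz]
      _ = 16 * (q : ℝ) ^ 4 * y ^ 3 := by rw [mul_pow, hlam3]
      _ ≤ 16 * (q : ℝ) ^ 4 * ((u : ℝ) - 1) ^ 3 := by gcongr
  · -- upper bound
    have hsq : ((Nat.sqrt (U + 8 * q * g) : ℕ) : ℝ) ≤ Real.sqrt ((U : ℝ) + 8 * q * g) := by
      apply Real.le_sqrt_of_sq_le
      exact_mod_cast Nat.sqrt_le' (U + 8 * q * g)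
    have hu2r : (u : ℝ) ≤ U + 8 * q * g + 8 * q * g *
        (48 * q * (Real.sqrt ((U : ℝ) + 8 * q * g) + 1) + 1152 * (q : ℝ) ^ 2 * (8 * q * g)) := by
      have h1 : (u : ℝ) ≤ U + 8 * q * g + 8 * q * g *
          (48 * q * (((Nat.sqrt (U + 8 * q * g) : ℕ) : ℝ) + 1) +
            1152 * (q : ℝ) ^ 2 * (8 * q * g)) := by exact_mod_cast hu2
      refine h1.trans ?_
      gcongr
    have hb := u_bound hq1 hg1 hy0 hw1 hw3 hlam0 hlam4 (by linarith) hyz hU2 hu2r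
    have hA1 : 1 ≤ (g : ℝ) * w ^ 8 := one_le_mul_of_one_le_of_one_le hg1 (one_le_pow₀ hw1)
    have hc := cube_bound (c := 302632) hz1 hA1 (by norm_num)
    rw [hnr, hw8, hz5]
    calc 16 * (q : ℝ) ^ 4 * u ^ 3 - u ≤ 16 * (q : ℝ) ^ 4 * u ^ 3 := by linarith
      _ = (lam * u) ^ 3 := by rw [mul_pow, hlam3]
      _ ≤ (z ^ 2 + 302632 * (g * w ^ 8 * z + (g * w ^ 8) ^ 2)) ^ 3 := by gcongr
      _ ≤ z ^ 6 + (6 * 302632 + 12 * 302632 ^ 2 + 8 * 302632 ^ 3) *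
          (g * w ^ 8 * z ^ 5 + (g * w ^ 8) ^ 6) := hc
      _ = _ := by
          rw [← hz6]
          have : (g : ℝ) ^ 6 * (q : ℝ) ^ 16 = (g * w ^ 8) ^ 6 := by rw [hw3]; ring
          rw [this]
  · -- congruent number
    set m : ℕ := 4 * q ^ 2 * u with hm
    obtain ⟨v, hv⟩ : ∃ v, m = v + 4 := ⟨m - 4, by omega⟩
    have hn1 : 4 * q ^ 2 * n = (v + 4) * (v + 3) * (v + 5) := by
      have h1 : m - 1 = v + 3 := by omega
      have h2 : m + 1 = v + 5 := by omega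
      calc 4 * q ^ 2 * n = (4 * q ^ 2 * u) * (m - 1) * (m + 1) := by rw [hn]; ring
        _ = (v + 4) * (v + 3) * (v + 5) := by rw [← hm, h1, h2, hv]
    refine ⟨m ^ 2 + 1, 4 * q, m ^ 2 + 2 * m - 1, m ^ 2 - 2 * m - 1, by positivity,
      by positivity, ?_, ?_, ?_, ?_⟩
    · rw [hv]
      have : (v + 4) ^ 2 = v ^ 2 + 8 * v + 16 := by ring
      omega
    · rw [hv]
      have : (v + 4) ^ 2 = v ^ 2 + 8 * v + 16 := by ring
      omega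
    · have e1 : m ^ 2 + 2 * m - 1 = v ^ 2 + 10 * v + 23 := by
        rw [hv]
        have : (v + 4) ^ 2 = v ^ 2 + 8 * v + 16 := by ring
        omega
      rw [e1]
      have e2 : n * (4 * q) ^ 2 = 4 * (4 * q ^ 2 * n) := by ring
      rw [e2, hn1, hv]
      ring
    · have e1 : m ^ 2 - 2 * m - 1 = v ^ 2 + 6 * v + 7 := by
        rw [hv]
        have : (v + 4) ^ 2 = v ^ 2 + 8 * v + 16 := by ring
        omega
      rw [e1]
      have e2 : n * (4 * q) ^ 2 = 4 * (4 * q ^ 2 * n) := by ring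
      rw [e2, hn1, hv]
      ring

end Pool.Agent.TH915.CN
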