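import Mathlib

/-!
# Square divisors of three linear forms in an arithmetic progression (helper915)
-/

set_option autoImplicit false

namespace Pool.Agent.TH915.CN

open Finset

open scoped Classical

/-- Numbers below `J` which are pairwise congruent modulo `m`. -/
theorem card_congr {J m : ℕ} (T : Finset ℕ) (hT : T ⊆ range J)
    (h : ∀ i ∈ T, ∀ j ∈ T, i ≡ j [MOD m]) : T.card ≤ J / m + 1 := by
  have h1 : T.card ≤ (range (J / m + 1)).card := by
    refine Finset.card_le_card_of_injOn (fun t => t / m) ?_ ?_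
    · intro t ht
      have h2 := Finset.mem_range.1 (hT ht)
      simp only [Finset.coe_range, Set.mem_Iio]
      exact Nat.lt_succ_of_le (Nat.div_le_div_right h2.le)
    · intro t ht t' ht' heq
      simp only at heq
      have h2 := Nat.div_add_mod t m
      have h3 := Nat.div_add_mod t' m
      have h4 : t % m = t' % m := h t ht t' ht'
      rw [heq, h4] at h2
      omega
  simpa using h1

/-- A linear form with leading coefficient prime to `m` is rarely divisible by `m`. -/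
theorem card_form {J m A : ℕ} {B : ℤ} (hA : Nat.Coprime m A) :
    ((range J).filter (fun j : ℕ => (m : ℤ) ∣ (A : ℤ) * j + B)).card ≤ J / m + 1 := by
  refine card_congr _ (Finset.filter_subset _ _) ?_
  intro i hi j hj
  have h1 := (Finset.mem_filter.1 hi).2
  have h2 := (Finset.mem_filter.1 hj).2
  have h3 : (m : ℤ) ∣ (A : ℤ) * ((j : ℤ) - i) := by
    have := dvd_sub h2 h1
    have e : (A : ℤ) * j + B - ((A : ℤ) * i + B) = (A : ℤ) * ((j : ℤ) - i) := by ring
    rwa [e] at this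
  have h4 : IsCoprime (m : ℤ) (A : ℤ) := Nat.isCoprime_iff_coprime.2 hA
  have h5 : (m : ℤ) ∣ (j : ℤ) - i := h4.dvd_of_dvd_mul_left h3
  exact (Nat.modEq_iff_dvd).2 h5

theorem sum_odd_sq (N : ℕ) : ∑ i ∈ range N, 1 / ((2 * (i : ℝ) + 3) ^ 2) ≤ 1 / 4 := by
  have h : ∀ N : ℕ, ∑ i ∈ range N, 1 / ((2 * (i : ℝ) + 3) ^ 2) ≤ 1 / 4 * (1 - 1 / ((N : ℝ) + 1)) := by
    intro N
    induction N with
    | zero => simp
    | succ N ih =>
      rw [Finset.sum_range_succ]
      have e : 1 / ((2 * (N : ℝ) + 3) ^ 2) ≤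
          1 / 4 * (1 / ((N : ℝ) + 1) - 1 / ((N : ℝ) + 2)) := by
        have h1 : (0 : ℝ) < (N : ℝ) + 1 := by positivity
        have h2 : (0 : ℝ) < (N : ℝ) + 2 := by positivity
        have h3 : 1 / 4 * (1 / ((N : ℝ) + 1) - 1 / ((N : ℝ) + 2)) =
            1 / (4 * (((N : ℝ) + 1) * ((N : ℝ) + 2))) := by
          field_simp
          ring
        rw [h3]
        apply one_div_le_one_div_of_le (by positivity)
        nlinarith
      have e2 : ((N + 1 : ℕ) : ℝ) + 1 = (N : ℝ) + 2 := by push_cast; ring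
      rw [e2]
      linarith
  refine (h N).trans ?_
  have : 0 ≤ 1 / ((N : ℝ) + 1) := by positivity
  linarith

/-- Three linear forms: some `j < J` is good for all the odd `k` up to `2 N + 1`. -/
theorem exists_j (J N : ℕ) (hJN : 12 * N < J) (A : Fin 3 → ℕ) (B : Fin 3 → ℤ) :
    ∃ j, j < J ∧ ∀ k : ℕ, Odd k → 3 ≤ k → k ≤ N → (∀ i, Nat.Coprime k (A i)) →
      ∀ i, ¬ ((k ^ 2 : ℕ) : ℤ) ∣ (A i : ℤ) * j + B i := by
  by_contra hcon
  push Not at hcon
  -- the bad sets
  set T : ℕ → Fin 3 → Finset ℕ := fun e i => if (∀ i, Nat.Coprime (2 * e + 3) (A i)) then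
    (range J).filter (fun j : ℕ => (((2 * e + 3) ^ 2 : ℕ) : ℤ) ∣ (A i : ℤ) * j + B i) else ∅
    with hT
  have hsub : range J ⊆ (range N ×ˢ (Finset.univ : Finset (Fin 3))).biUnion
      (fun x => T x.1 x.2) := by
    intro j hj
    obtain ⟨k, hk1, hk2, hk3, hk4, i, hk5⟩ := hcon j (Finset.mem_range.1 hj)
    obtain ⟨e, he⟩ := hk1
    rw [Finset.mem_biUnion]
    have he1 : 2 * (e - 1) + 3 = k := by omega
    refine ⟨(e - 1, i), ?_, ?_⟩
    · rw [Finset.mem_product]
      exact ⟨Finset.mem_range.2 (by show e - 1 < N; omega), Finset.mem_univ _⟩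
    · simp only [hT]
      rw [he1, if_pos hk4, Finset.mem_filter]
      exact ⟨hj, hk5⟩
  have hcard : ∀ e : ℕ, ∀ i, ((T e i).card : ℝ) ≤ J * (1 / ((2 * (e : ℝ) + 3) ^ 2)) + 1 := by
    intro e i
    simp only [hT]
    split_ifs with h
    · have h1 := card_form (J := J) (m := (2 * e + 3) ^ 2) (A := A i) (B := B i)
        ((h i).pow_left 2)
      have h2 : ((J / (2 * e + 3) ^ 2 : ℕ) : ℝ) ≤ J * (1 / ((2 * (e : ℝ) + 3) ^ 2)) := by
        have := Nat.cast_div_le (α := ℝ) (m := J) (n := (2 * e + 3) ^ 2)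
        push_cast at this
        rw [mul_one_div]
        exact this
      have h3 : ((((range J).filter
          (fun j : ℕ => (((2 * e + 3) ^ 2 : ℕ) : ℤ) ∣ (A i : ℤ) * j + B i)).card : ℕ) : ℝ) ≤
          ((J / (2 * e + 3) ^ 2 : ℕ) : ℝ) + 1 := by exact_mod_cast h1
      linarith
    · simp only [Finset.card_empty, Nat.cast_zero]
      positivity
  have h1 : (J : ℝ) ≤ ∑ x ∈ range N ×ˢ (Finset.univ : Finset (Fin 3)), ((T x.1 x.2).card : ℝ) := by
    have h2 := (Finset.card_le_card hsub).trans Finset.card_biUnion_le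
    rw [Finset.card_range] at h2
    exact_mod_cast h2
  rw [Finset.sum_product] at h1
  have h2 : ∑ e ∈ range N, ∑ i : Fin 3, ((T e i).card : ℝ) ≤
      ∑ e ∈ range N, (3 * (J * (1 / ((2 * (e : ℝ) + 3) ^ 2)) + 1)) := by
    refine Finset.sum_le_sum fun e _ => ?_
    calc ∑ i : Fin 3, ((T e i).card : ℝ) ≤
        ∑ _i : Fin 3, (J * (1 / ((2 * (e : ℝ) + 3) ^ 2)) + 1) :=
          Finset.sum_le_sum fun i _ => hcard e i
      _ = 3 * (J * (1 / ((2 * (e : ℝ) + 3) ^ 2)) + 1) := by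
          rw [Finset.sum_const, Finset.card_univ, Fintype.card_fin, nsmul_eq_mul]
          norm_num
  have h3 : ∑ e ∈ range N, (3 * ((J : ℝ) * (1 / ((2 * (e : ℝ) + 3) ^ 2)) + 1)) =
      3 * (J : ℝ) * (∑ e ∈ range N, 1 / ((2 * (e : ℝ) + 3) ^ 2)) + 3 * (N : ℝ) := by
    rw [← Finset.mul_sum, Finset.sum_add_distrib, ← Finset.mul_sum, Finset.sum_const,
      Finset.card_range, nsmul_eq_mul]
    ring
  have h4 := sum_odd_sq N
  have h5 : 3 * (J : ℝ) * (∑ e ∈ range N, 1 / ((2 * (e : ℝ) + 3) ^ 2)) ≤ 3 * J * (1 / 4) := by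
    gcongr
  have h6 : (12 : ℝ) * N < J := by exact_mod_cast hJN
  linarith

end Pool.Agent.TH915.CN
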